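import Pool.Agent.Q286.BD.Spec

set_option autoImplicit false

/-! Elementary facts on `Lam` and `ML`. -/

namespace Pool.Agent.Q261.BD

open Complex MeasureTheory Filter Topology Set
open Pool.Agent.Q286.BD

lemma Lam_gt (t : ℝ) : 2.77 < Lam t := by
  unfold Lam
  have h1 : Real.log 16 ≤ Real.log (|t| + 16) := Real.log_le_log (by norm_num) (by linarith [abs_nonneg t])
  have h2 : Real.log 16 = 4 * Real.log 2 := by
    rw [show (16 : ℝ) = 2 ^ 4 by norm_num, Real.log_pow]; norm_num
  have := Real.log_two_gt_d9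
  norm_num
  linarith

lemma Lam_pos (t : ℝ) : 0 < Lam t := by linarith [Lam_gt t]

lemma logLam_gt (t : ℝ) : 1 < Real.log (Lam t) := by
  rw [Real.lt_log_iff_exp_lt (Lam_pos t)]
  have h1 := Lam_gt t
  have h2 := Real.exp_one_lt_d9
  linarith

lemma logLam_le (t : ℝ) : Real.log (Lam t) ≤ Lam t := by
  have := Real.log_le_sub_one_of_pos (Lam_pos t)
  linarith

lemma ML_ge (t : ℝ) : 1 ≤ ML t := by
  unfold ML
  rw [le_div_iff₀ (by linarith [logLam_gt t])]
  linarith [logLam_le t]

lemma ML_pos (t : ℝ) : 0 < ML t := by linarith [ML_ge t]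

lemma ML_le_Lam (t : ℝ) : ML t ≤ Lam t := by
  unfold ML
  rw [div_le_iff₀ (by linarith [logLam_gt t])]
  nlinarith [Lam_pos t, logLam_gt t]

lemma ML_mul (t : ℝ) : ML t * Real.log (Lam t) = Lam t := by
  unfold ML
  rw [div_mul_cancel₀]
  linarith [logLam_gt t]

lemma Lam_neg (t : ℝ) : Lam (-t) = Lam t := by unfold Lam; rw [abs_neg]
lemma ML_neg (t : ℝ) : ML (-t) = ML t := by unfold ML; rw [Lam_neg]

lemma Lam_mono {t t' : ℝ} (h : |t| ≤ |t'|) : Lam t ≤ Lam t' := by
  unfold Lam
  exact Real.log_le_log (by linarith [abs_nonneg t]) (by linarith)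

lemma div_log_mono {x y : ℝ} (hx : Real.exp 1 ≤ x) (hxy : x ≤ y) : x / Real.log x ≤ y / Real.log y := by
  have hx0 : 0 < x := (Real.exp_pos 1).trans_le hx
  have hy0 : 0 < y := hx0.trans_le hxy
  have h1 := Real.log_div_self_antitoneOn hx (show Real.exp 1 ≤ y from hx.trans hxy) hxy
  simp only at h1
  have hlx : 0 < Real.log x := by
    have : 1 ≤ Real.log x := by rwa [Real.le_log_iff_exp_le hx0]
    linarith
  have hly : 0 < Real.log y := hlx.trans_le (Real.log_le_log hx0 hxy)
  rw [div_le_div_iff₀ hlx hly]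
  rw [div_le_div_iff₀ hy0 hx0] at h1
  linarith

lemma exp_le_Lam (t : ℝ) : Real.exp 1 ≤ Lam t := by
  have h1 := Lam_gt t
  have h2 := Real.exp_one_lt_d9
  linarith

lemma ML_mono {t t' : ℝ} (h : |t| ≤ |t'|) : ML t ≤ ML t' :=
  div_log_mono (exp_le_Lam t) (Lam_mono h)

lemma Lam_shift {t u : ℝ} (h : |t - u| ≤ 1) : Lam t ≤ Lam u + 1 / 16 := by
  unfold Lam
  have h1 : |t| ≤ |u| + 1 := by
    have := abs_add_le u (t - u)
    rw [show u + (t - u) = t by ring] at this
    linarith
  have h2 : |t| + 16 ≤ (|u| + 16) * (1 + 1 / 16) := by linarith [abs_nonneg u]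
  have h3 := Real.log_le_log (by positivity) h2
  rw [Real.log_mul (by positivity) (by norm_num)] at h3
  have h4 := Real.log_le_sub_one_of_pos (x := 1 + 1 / 16) (by norm_num)
  linarith

lemma ML_shift {t u : ℝ} (h : |t - u| ≤ 1) : ML t ≤ 2 * ML u := by
  rcases le_total |t| |u| with h1 | h1
  · have := ML_mono h1
    linarith [ML_pos u]
  · have h2 := Lam_shift h
    have h3 := Lam_mono h1
    have h4 := logLam_gt u
    have h5 : Real.log (Lam u) ≤ Real.log (Lam t) := Real.log_le_log (Lam_pos u) h3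
    calc ML t = Lam t / Real.log (Lam t) := rfl
      _ ≤ Lam t / Real.log (Lam u) := div_le_div_of_nonneg_left (Lam_pos t).le (by linarith) h5
      _ ≤ (2 * Lam u) / Real.log (Lam u) := div_le_div_of_nonneg_right (by linarith [Lam_gt u]) (by linarith)
      _ = 2 * ML u := by unfold ML; ring

lemma logLam_shift {t u : ℝ} (h : |t - u| ≤ 1) : Real.log (Lam u) ≤ 2 * Real.log (Lam t) := by
  have h2 : Lam u ≤ 2 * Lam t := by
    have := Lam_shift (t := u) (u := t) (by rwa [abs_sub_comm])
    linarith [Lam_gt t]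
  have h3 := Real.log_le_log (Lam_pos u) h2
  rw [Real.log_mul two_ne_zero (Lam_pos t).ne'] at h3
  have h4 := logLam_gt t
  have := Real.log_two_lt_d9
  linarith

lemma ML_of_log {t : ℝ} (ht : 16 ≤ t) : 1 ≤ Real.log (Real.log t) ∧ Real.log t / Real.log (Real.log t) ≤ ML t ∧
    Real.log (Lam t) ≤ 2 * Real.log (Real.log t) := by
  have h0 : Real.exp 1 ≤ Real.log t := by
    have h1 : Real.log 16 ≤ Real.log t := Real.log_le_log (by norm_num) ht
    have h2 : Real.log 16 = 4 * Real.log 2 := by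
      rw [show (16 : ℝ) = 2 ^ 4 by norm_num, Real.log_pow]; norm_num
    have := Real.log_two_gt_d9
    have := Real.exp_one_lt_d9
    linarith
  have hlt : 0 < Real.log t := (Real.exp_pos 1).trans_le h0
  have h1 : 1 ≤ Real.log (Real.log t) := by rwa [Real.le_log_iff_exp_le hlt]
  have hta : |t| = t := abs_of_nonneg (by linarith)
  refine ⟨h1, ?_, ?_⟩
  · refine div_log_mono h0 ?_
    unfold Lam
    rw [hta]
    exact Real.log_le_log (by linarith) (by linarith)
  · have h2 : Lam t ≤ 2 * Real.log t := by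
      unfold Lam
      rw [hta]
      have h3 := Real.log_le_log (by linarith) (by linarith : t + 16 ≤ 2 * t)
      rw [Real.log_mul two_ne_zero (by linarith)] at h3
      have h4 : Real.log 2 ≤ Real.log t := Real.log_le_log two_pos (by linarith)
      linarith
    have h3 := Real.log_le_log (Lam_pos t) h2
    rw [Real.log_mul two_ne_zero hlt.ne'] at h3
    have := Real.log_two_lt_d9
    linarith

end Pool.Agent.Q261.BD
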