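import Pool.Agent.Q261.BD.Lm
import Pool.Agent.Q241.SN.Grow3
import Pool.Agent.Q241.SN.Gdef3

set_option autoImplicit false

/-! Bounds for the logarithm of zeta to the right of the critical line, under RH. -/

namespace Pool.Agent.Q261.BD

open Complex MeasureTheory Filter Topology Set
open Pool.Agent.Q286.BD
open Q241.SN (GG GH exists_GG)

/-- the growth theorem in terms of `ML` -/
lemma gr (hRH : RiemannHypothesis) {g : ℂ → ℂ} (h : GG g) : ∃ C T0 : ℝ, 0 < C ∧ 16 ≤ T0 ∧
    ∀ t : ℝ, T0 ≤ t → ∀ x : ℝ, 0 < x → x ≤ 1 →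
      ‖g (x + t * I)‖ ≤ C * (ML t * (1 + 1 / (x * Real.log (Lam t)))) := by
  obtain ⟨C0, hGH⟩ := h.toGH hRH
  obtain ⟨C, hC, hev⟩ := hGH.growth (η := 1 / 2) (by norm_num) le_rfl
  obtain ⟨T, hT⟩ := eventually_atTop.1 hev
  refine ⟨2 * C, max T 16, by positivity, le_max_right _ _, fun t ht x hx hx1 => ?_⟩
  have h1 := hT t ((le_max_left _ _).trans ht) x hx (by linarith)
  have ht16 : 16 ≤ t := (le_max_right _ _).trans ht
  obtain ⟨a1, a2, a3⟩ := ML_of_log ht16
  set ℓ : ℝ := Real.log (Real.log t) with hℓ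
  have hlt : 0 < Real.log t := Real.log_pos (by linarith)
  refine h1.trans ?_
  have h2 : Real.exp (-(x * ((ℓ - Real.log ℓ) / (1 / 2 + 1 / 2)))) ≤ 1 := by
    rw [Real.exp_le_one_iff]
    have h3 : Real.log ℓ ≤ ℓ := (Real.log_le_sub_one_of_pos (by linarith)).trans (by linarith)
    have h4 : 0 ≤ (ℓ - Real.log ℓ) / (1 / 2 + 1 / 2) := div_nonneg (by linarith) (by norm_num)
    nlinarith
  have hL0 : 0 < Real.log (Lam t) := by linarith [logLam_gt t]
  have h3 : 1 / (x * ℓ) ≤ 2 * (1 / (x * Real.log (Lam t))) := by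
    rw [mul_one_div, div_le_div_iff₀ (by positivity) (by positivity)]
    nlinarith
  have h4 : 0 < Real.log t / ℓ := by positivity
  have h5 : 0 < 1 / (x * Real.log (Lam t)) := by positivity
  have h5' : 0 < 1 / (x * ℓ) := by positivity
  calc C * (Real.log t / ℓ) * (1 + 1 / (x * ℓ)) * Real.exp (-(x * ((ℓ - Real.log ℓ) / (1 / 2 + 1 / 2))))
      ≤ C * (Real.log t / ℓ) * (1 + 1 / (x * ℓ)) * 1 := mul_le_mul_of_nonneg_left h2 (by positivity)
    _ ≤ C * ML t * (1 + 2 * (1 / (x * Real.log (Lam t)))) * 1 := by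
        refine mul_le_mul_of_nonneg_right ?_ zero_le_one
        refine mul_le_mul (mul_le_mul_of_nonneg_left a2 hC.le) (by linarith) (by positivity) ?_
        have := ML_pos t
        positivity
    _ ≤ 2 * C * (ML t * (1 + 1 / (x * Real.log (Lam t)))) := by
        have h6 := ML_pos t
        have h7 : 0 < C * ML t := by positivity
        nlinarith

/-- compactness -/
lemma gr_cpt {g : ℂ → ℂ} (h : GG g) {x0 T : ℝ} (hx0 : 0 < x0) : ∃ B : ℝ, 0 ≤ B ∧
    ∀ x t : ℝ, x0 ≤ x → x ≤ 1 → |t| ≤ T → ‖g (x + t * I)‖ ≤ B := by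
  have hK : IsCompact (Icc x0 1 ×ℂ Icc (-T) T) := isCompact_Icc.reProdIm isCompact_Icc
  have hc : ContinuousOn g (Icc x0 1 ×ℂ Icc (-T) T) := by
    intro z hz
    rw [Complex.mem_reProdIm] at hz
    exact (h.der z (by linarith [hz.1.1])).continuousAt.continuousWithinAt
  obtain ⟨B, hB⟩ := hK.exists_bound_of_continuousOn hc
  refine ⟨|B|, abs_nonneg _, fun x t h1 h2 h3 => ?_⟩
  rw [abs_le] at h3
  refine (hB _ ?_).trans (le_abs_self B)
  rw [Complex.mem_reProdIm]
  simp only [add_re, ofReal_re, mul_re, I_re, mul_zero, ofReal_im, I_im, mul_one, sub_self, add_zero,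
    add_im, mul_im, zero_add, mem_Icc]
  exact ⟨⟨h1, h2⟩, h3⟩

lemma zeta_conj_norm (s : ℂ) : ‖riemannZeta (starRingEnd ℂ s)‖ = ‖riemannZeta s‖ := by
  rw [riemannZeta_conj, Complex.norm_conj]

lemma pt_conj (v u : ℝ) : (1 / 2 + v + ((-u : ℝ) : ℂ) * I : ℂ) = starRingEnd ℂ (1 / 2 + v + u * I) := by
  apply Complex.ext <;> simp

lemma pt_add (v u : ℝ) : (1 / 2 + v + u * I : ℂ) = 1 / 2 + ((v : ℂ) + u * I) := by ring

/-- log of zeta against the real part of `g` -/
lemma log_zeta {g : ℂ → ℂ} (h : GG g) {v u : ℝ} (hv : 0 < v) (hne : (1 / 2 + v + u * I : ℂ) ≠ 1) :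
    Real.log (‖riemannZeta (1 / 2 + v + u * I)‖ * ‖(-1 / 2 + v + u * I : ℂ)‖) =
      (g (v + u * I)).re + Real.log ‖(v + u * I + 3 / 2 : ℂ)‖ := by
  have hz : 0 < ((v : ℂ) + u * I).re := by simpa using hv
  have hz2 : (v : ℂ) + u * I ≠ 1 / 2 := by
    intro h0; apply hne; rw [pt_add, h0]; norm_num
  have h1 := h.exp _ hz
  have h2 := Q241.SN.ZZ_eq hz hz2
  have h5 : ((v : ℂ) + u * I + 3 / 2) ≠ 0 := by
    intro h0
    have := congrArg Complex.re h0
    simp at this
    linarith
  have h3 : ‖riemannZeta (1 / 2 + v + u * I)‖ * ‖(-1 / 2 + v + u * I : ℂ)‖ =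
      ‖Complex.exp (g (v + u * I))‖ * ‖(v + u * I + 3 / 2 : ℂ)‖ := by
    have e : riemannZeta (1 / 2 + (v + u * I)) * (((v : ℂ) + u * I - 1 / 2) / (v + u * I + 3 / 2)) * (v + u * I + 3 / 2) =
        riemannZeta (1 / 2 + (v + u * I)) * (-1 / 2 + v + u * I) := by
      rw [mul_assoc, div_mul_cancel₀ _ h5]; ring
    rw [h1, h2, pt_add, ← norm_mul, ← norm_mul, e]
  rw [h3, Complex.norm_exp, Real.log_mul (Real.exp_pos _).ne' (norm_pos_iff.2 h5).ne', Real.log_exp]

/-- **Z1 (b')** -/
theorem far2 : S_far' := by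
  intro hRH
  obtain ⟨g, h⟩ := exists_GG hRH
  obtain ⟨C, T0, hC, hT0, hgr⟩ := gr hRH h
  have hL0 : 0 < Real.log (Lam T0) := by linarith [logLam_gt T0]
  obtain ⟨B, hB0, hB⟩ := gr_cpt h (x0 := 1 / Real.log (Lam T0)) (T := T0) (by positivity)
  refine ⟨2 * C + B + 2, by positivity, ?_⟩
  have key : ∀ u v : ℝ, 1 ≤ u → 1 / Real.log (Lam u) ≤ v → v ≤ 1 →
      |Real.log ‖riemannZeta (1 / 2 + v + u * I)‖| ≤ (2 * C + B + 2) * ML u := by
    intro u v hu hv hv1
    have hLu : 0 < Real.log (Lam u) := by linarith [logLam_gt u]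
    have hv0 : 0 < v := lt_of_lt_of_le (by positivity) hv
    have hne : (1 / 2 + v + u * I : ℂ) ≠ 1 := by
      intro h0
      have := congrArg Complex.im h0
      simp at this
      linarith
    have h1 := log_zeta h hv0 hne
    have hua : |u| = u := abs_of_nonneg (by linarith)
    have n1 : 1 ≤ ‖(-1 / 2 + v + u * I : ℂ)‖ := by
      have := Complex.abs_im_le_norm (-1 / 2 + v + u * I : ℂ)
      have e : (-1 / 2 + v + u * I : ℂ).im = u := by simp
      rw [e, hua] at this
      linarith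
    have hζ : riemannZeta (1 / 2 + v + u * I) ≠ 0 := by
      have hz : 0 < ((v : ℂ) + u * I).re := by simpa using hv0
      have h2 := Q241.SN.ZZ_ne hRH hz
      rw [Q241.SN.ZZ_eq hz (by intro h0; apply hne; rw [pt_add, h0]; norm_num), ← pt_add] at h2
      exact left_ne_zero_of_mul h2
    rw [Real.log_mul (norm_pos_iff.2 hζ).ne' (by linarith)] at h1
    have n2 : ‖(v + u * I + 3 / 2 : ℂ)‖ ≤ 3 * ‖(-1 / 2 + v + u * I : ℂ)‖ := by
      have e : (v + u * I + 3 / 2 : ℂ) = (-1 / 2 + v + u * I : ℂ) + 2 := by ring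
      rw [e]
      refine (norm_add_le _ _).trans ?_
      rw [Complex.norm_ofNat]
      linarith
    have n3 : ‖(-1 / 2 + v + u * I : ℂ)‖ ≤ ‖(v + u * I + 3 / 2 : ℂ)‖ := by
      rw [← sq_le_sq₀ (norm_nonneg _) (norm_nonneg _), ← Complex.normSq_eq_norm_sq, ← Complex.normSq_eq_norm_sq,
        Complex.normSq_apply, Complex.normSq_apply]
      have e1 : (-1 / 2 + v + u * I : ℂ).re = v - 1 / 2 := by simp; ring
      have e2 : (-1 / 2 + v + u * I : ℂ).im = u := by simp
      have e3 : (v + u * I + 3 / 2 : ℂ).re = v + 3 / 2 := by simp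
      have e4 : (v + u * I + 3 / 2 : ℂ).im = u := by simp
      rw [e1, e2, e3, e4]
      nlinarith
    have m1 := Real.log_le_log (by linarith) n2
    rw [Real.log_mul (by norm_num) (by linarith)] at m1
    have m2 := Real.log_le_log (by linarith) n3
    have m3 : Real.log 3 ≤ 2 := (Real.log_le_sub_one_of_pos (by norm_num)).trans (by norm_num)
    have hM := ML_ge u
    have h4 : |(g (v + u * I)).re| ≤ (2 * C + B) * ML u := by
      refine (Complex.abs_re_le_norm _).trans ?_
      rcases le_total T0 u with hc | hc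
      · refine (hgr u hc v hv0 hv1).trans ?_
        have h5 : 1 / (v * Real.log (Lam u)) ≤ 1 := by
          rw [div_le_one (by positivity)]
          rw [div_le_iff₀ hLu] at hv
          exact hv
        have : C * (ML u * (1 + 1 / (v * Real.log (Lam u)))) ≤ C * (ML u * 2) := by
          refine mul_le_mul_of_nonneg_left ?_ hC.le
          exact mul_le_mul_of_nonneg_left (by linarith) (by linarith)
        nlinarith
      · have h5 : 1 / Real.log (Lam T0) ≤ v := by
          refine le_trans ?_ hv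
          refine div_le_div_of_nonneg_left zero_le_one hLu ?_
          exact Real.log_le_log (Lam_pos u) (Lam_mono (by rw [hua, abs_of_nonneg (by linarith)]; exact hc))
        have h6 := hB v u h5 hv1 (by rw [hua]; exact hc)
        nlinarith
    rw [abs_le] at h4 ⊢
    constructor <;> nlinarith
  intro u v hu hv hv1
  rcases le_total 0 u with h0 | h0
  · exact key u v (by rwa [abs_of_nonneg h0] at hu) hv hv1
  · have h2 := key (-u) v (by rwa [abs_of_nonpos h0] at hu) (by rwa [Lam_neg]) hv1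
    rw [pt_conj, zeta_conj_norm, ML_neg] at h2
    exact h2

/-- **Z1 (b)** -/
theorem far : S_far := by
  intro hRH
  obtain ⟨C1, hC1, h1⟩ := far2 hRH
  obtain ⟨g, h⟩ := exists_GG hRH
  have hL0 : 0 < Real.log (Lam 1) := by linarith [logLam_gt 1]
  obtain ⟨B, hB0, hB⟩ := gr_cpt h (x0 := 1 / Real.log (Lam 1)) (T := 1) (by positivity)
  refine ⟨C1 + B + 2, by positivity, fun u v hv hv1 hne => ?_⟩
  have hM := ML_ge u
  have hLu : 0 < Real.log (Lam u) := by linarith [logLam_gt u]
  have hv0 : 0 < v := lt_of_lt_of_le (by positivity) hv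
  have hl0 : 0 ≤ Real.log (|u| + 2) := Real.log_nonneg (by linarith [abs_nonneg u])
  rcases le_total 1 |u| with hc | hc
  · have h2 := h1 u v hc hv hv1
    have n1 : 1 ≤ ‖(-1 / 2 + v + u * I : ℂ)‖ := by
      have := Complex.abs_im_le_norm (-1 / 2 + v + u * I : ℂ)
      have e : (-1 / 2 + v + u * I : ℂ).im = u := by simp
      rw [e] at this
      linarith
    have n2 : ‖(-1 / 2 + v + u * I : ℂ)‖ ≤ |u| + 2 := by
      have := Complex.norm_le_abs_re_add_abs_im (-1 / 2 + v + u * I : ℂ)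
      have e : (-1 / 2 + v + u * I : ℂ).im = u := by simp
      have e1 : (-1 / 2 + v + u * I : ℂ).re = v - 1 / 2 := by simp; ring
      rw [e, e1] at this
      have : |v - 1 / 2| ≤ 1 := by rw [abs_le]; constructor <;> linarith
      linarith
    have hζ : riemannZeta (1 / 2 + v + u * I) ≠ 0 := by
      have hz : 0 < ((v : ℂ) + u * I).re := by simpa using hv0
      have h2 := Q241.SN.ZZ_ne hRH hz
      rw [Q241.SN.ZZ_eq hz (by intro h0; apply hne; rw [pt_add, h0]; norm_num), ← pt_add] at h2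
      exact left_ne_zero_of_mul h2
    rw [Real.log_mul (norm_pos_iff.2 hζ).ne' (by linarith)]
    have m1 := Real.log_le_log (by linarith) n2
    have m0 := Real.log_nonneg n1
    rw [abs_le] at h2 ⊢
    constructor <;> nlinarith
  · rw [log_zeta h hv0 hne]
    have h5 : 1 / Real.log (Lam 1) ≤ v := by
      refine le_trans ?_ hv
      refine div_le_div_of_nonneg_left zero_le_one hLu ?_
      exact Real.log_le_log (Lam_pos u) (Lam_mono (by rw [abs_one]; exact hc))
    have h6 := (Complex.abs_re_le_norm _).trans (hB v u h5 hv1 hc)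
    have n1 : 1 ≤ ‖(v + u * I + 3 / 2 : ℂ)‖ := by
      have := Complex.abs_re_le_norm (v + u * I + 3 / 2 : ℂ)
      have e : (v + u * I + 3 / 2 : ℂ).re = v + 3 / 2 := by simp
      rw [e, abs_of_nonneg (by linarith)] at this
      linarith
    have n2 : ‖(v + u * I + 3 / 2 : ℂ)‖ ≤ 4 := by
      have := Complex.norm_le_abs_re_add_abs_im (v + u * I + 3 / 2 : ℂ)
      have e : (v + u * I + 3 / 2 : ℂ).re = v + 3 / 2 := by simp
      have e1 : (v + u * I + 3 / 2 : ℂ).im = u := by simp
      rw [e, e1, abs_of_nonneg (by linarith)] at this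
      linarith
    have m0 := Real.log_nonneg n1
    have m1 := Real.log_le_log (by linarith) n2
    have m2 : Real.log 4 ≤ 2 := by
      have h5 : Real.log 4 = 2 * Real.log 2 := by
        rw [show (4 : ℝ) = 2 ^ 2 by norm_num, Real.log_pow]; norm_num
      have := Real.log_two_lt_d9
      linarith
    rw [abs_le] at h6 ⊢
    constructor <;> nlinarith

/-- **Z1 (c)** -/
theorem mono : S_mono := by
  intro hRH
  obtain ⟨g, h⟩ := exists_GG hRH
  obtain ⟨C0, hGH⟩ := h.toGH hRH
  have hC0 := hGH.hC0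
  have hz1 : riemannZeta 1 ≠ 0 := riemannZeta_ne_zero_of_one_le_re (by simp)
  have hz1' : 0 < ‖riemannZeta 1‖ := norm_pos_iff.2 hz1
  refine ⟨3 * Real.exp C0 + ‖riemannZeta (cl 0)‖ / ‖riemannZeta 1‖, by positivity, fun t a ha ha1 => ?_⟩
  have hE : 1 ≤ Real.exp (a * Lam t) := Real.one_le_exp (by have := Lam_pos t; positivity)
  by_cases hs : (1 / 2 + a + t * I : ℂ) = 1
  · have ht : t = 0 := by
      have := congrArg Complex.im hs
      simpa using this
    subst ht
    rw [hs]
    have : ‖riemannZeta (cl 0)‖ = ‖riemannZeta (cl 0)‖ / ‖riemannZeta 1‖ * ‖riemannZeta 1‖ := by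
      field_simp
    refine this.le.trans (mul_le_mul_of_nonneg_right ?_ hz1'.le)
    have h0 : 0 ≤ ‖riemannZeta (cl 0)‖ / ‖riemannZeta 1‖ := by positivity
    have h1 : 0 < 3 * Real.exp C0 := by positivity
    nlinarith
  · -- the inequality for `0 < x ≤ a`
    have h1 : ∀ x : ℝ, 0 < x → x ≤ a → ‖riemannZeta (1 / 2 + x + t * I)‖ * ‖(x - 1 / 2 + t * I : ℂ)‖ * ‖(a + t * I + 3 / 2 : ℂ)‖ ≤
        Real.exp (a * (Real.log (|t| + 3) / 2 + C0)) * (‖riemannZeta (1 / 2 + a + t * I)‖ * ‖(a - 1 / 2 + t * I : ℂ)‖) * ‖(x + t * I + 3 / 2 : ℂ)‖ := by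
      intro x hx hxa
      by_cases hxs : (x : ℂ) + t * I = 1 / 2
      · have : (x - 1 / 2 + t * I : ℂ) = 0 := by linear_combination hxs
        rw [this, norm_zero, mul_zero, zero_mul]
        positivity
      · have has : (a : ℂ) + t * I ≠ 1 / 2 := by
          intro h0; apply hs; rw [pt_add, h0]; norm_num
        have hzx : 0 < ((x : ℂ) + t * I).re := by simpa using hx
        have hza : 0 < ((a : ℂ) + t * I).re := by simpa using ha
        have h2 := hGH.re_le hx hxa ha1 t
        have h3 := Real.exp_le_exp.2 h2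
        rw [Real.exp_add, ← Complex.norm_exp, ← Complex.norm_exp, h.exp _ hzx, h.exp _ hza,
          Q241.SN.ZZ_eq hzx hxs, Q241.SN.ZZ_eq hza has, norm_mul, norm_mul, norm_div, norm_div, ← pt_add, ← pt_add] at h3
        have n1 : 0 < ‖(x + t * I + 3 / 2 : ℂ)‖ := by
          refine norm_pos_iff.2 fun h0 => ?_
          have := congrArg Complex.re h0
          simp at this
          linarith
        have n2 : 0 < ‖(a + t * I + 3 / 2 : ℂ)‖ := by
          refine norm_pos_iff.2 fun h0 => ?_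
          have := congrArg Complex.re h0
          simp at this
          linarith
        have e1 : ((x : ℂ) + t * I - 1 / 2) = x - 1 / 2 + t * I := by ring
        have e2 : ((a : ℂ) + t * I - 1 / 2) = a - 1 / 2 + t * I := by ring
        rw [e1, e2] at h3
        have h4 : Real.exp ((a - x) * (Real.log (|t| + 3) / 2 + C0)) ≤ Real.exp (a * (Real.log (|t| + 3) / 2 + C0)) := by
          refine Real.exp_le_exp.2 (mul_le_mul_of_nonneg_right (by linarith) ?_)
          have : 0 ≤ Real.log (|t| + 3) := Real.log_nonneg (by linarith [abs_nonneg t])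
          linarith
        set P := ‖riemannZeta (1 / 2 + x + t * I)‖
        set Q := ‖riemannZeta (1 / 2 + a + t * I)‖
        set p := ‖(x - 1 / 2 + t * I : ℂ)‖
        set q := ‖(a - 1 / 2 + t * I : ℂ)‖
        set r := ‖(x + t * I + 3 / 2 : ℂ)‖
        set w := ‖(a + t * I + 3 / 2 : ℂ)‖
        set E1 := Real.exp ((a - x) * (Real.log (|t| + 3) / 2 + C0))
        set E2 := Real.exp (a * (Real.log (|t| + 3) / 2 + C0))
        have h5 : P * (p / r) ≤ Q * (q / w) * E2 :=
          h3.trans (mul_le_mul_of_nonneg_left h4 (by positivity))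
        have h6 := mul_le_mul_of_nonneg_right h5 (by positivity : 0 ≤ r * w)
        calc P * p * w = P * (p / r) * (r * w) := by field_simp
          _ ≤ Q * (q / w) * E2 * (r * w) := h6
          _ = E2 * (Q * q) * r := by field_simp
    -- let `x → 0`
    have hcl : cl t ≠ 1 := by
      intro h0
      have := congrArg Complex.re h0
      unfold cl at this
      simp at this
    have hcont : ContinuousAt (fun x : ℝ => riemannZeta (1 / 2 + x + t * I)) 0 := by
      have e : (fun x : ℝ => riemannZeta (1 / 2 + x + t * I)) = riemannZeta ∘ (fun x : ℝ => (1 / 2 + x + t * I : ℂ)) := rfl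
      rw [e]
      refine ContinuousAt.comp ?_ (by fun_prop)
      have e2 : (1 / 2 + ((0 : ℝ) : ℂ) + t * I : ℂ) = cl t := by unfold cl; push_cast; ring
      rw [e2]
      exact (differentiableAt_riemannZeta hcl).continuousAt
    have hl1 : Tendsto (fun x : ℝ => ‖riemannZeta (1 / 2 + x + t * I)‖ * ‖(x - 1 / 2 + t * I : ℂ)‖ * ‖(a + t * I + 3 / 2 : ℂ)‖)
        (𝓝[>] 0) (𝓝 (‖riemannZeta (1 / 2 + (0 : ℝ) + t * I)‖ * ‖(((0 : ℝ) : ℂ) - 1 / 2 + t * I : ℂ)‖ * ‖(a + t * I + 3 / 2 : ℂ)‖)) := by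
      have hc : ContinuousAt (fun x : ℝ => ‖riemannZeta (1 / 2 + x + t * I)‖ * ‖(x - 1 / 2 + t * I : ℂ)‖ * ‖(a + t * I + 3 / 2 : ℂ)‖) 0 := by
        refine ContinuousAt.mul (ContinuousAt.mul hcont.norm ?_) continuousAt_const
        fun_prop
      exact hc.tendsto.mono_left nhdsWithin_le_nhds
    have hl2 : Tendsto (fun x : ℝ => Real.exp (a * (Real.log (|t| + 3) / 2 + C0)) *
        (‖riemannZeta (1 / 2 + a + t * I)‖ * ‖(a - 1 / 2 + t * I : ℂ)‖) * ‖(x + t * I + 3 / 2 : ℂ)‖) (𝓝[>] 0)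
        (𝓝 (Real.exp (a * (Real.log (|t| + 3) / 2 + C0)) *
        (‖riemannZeta (1 / 2 + a + t * I)‖ * ‖(a - 1 / 2 + t * I : ℂ)‖) * ‖(((0 : ℝ) : ℂ) + t * I + 3 / 2 : ℂ)‖)) := by
      have hc : ContinuousAt (fun x : ℝ => Real.exp (a * (Real.log (|t| + 3) / 2 + C0)) *
        (‖riemannZeta (1 / 2 + a + t * I)‖ * ‖(a - 1 / 2 + t * I : ℂ)‖) * ‖(x + t * I + 3 / 2 : ℂ)‖) 0 := by
        fun_prop
      exact hc.tendsto.mono_left nhdsWithin_le_nhds
    have h2 := le_of_tendsto_of_tendsto hl1 hl2 (by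
      filter_upwards [Ioc_mem_nhdsGT ha] with x hx
      exact h1 x hx.1 hx.2)
    have e1 : (1 / 2 + ((0 : ℝ) : ℂ) + t * I : ℂ) = cl t := by unfold cl; push_cast; ring
    rw [e1] at h2
    set P := ‖riemannZeta (cl t)‖
    set Q := ‖riemannZeta (1 / 2 + a + t * I)‖
    set p := ‖(((0 : ℝ) : ℂ) - 1 / 2 + t * I : ℂ)‖
    set q := ‖(a - 1 / 2 + t * I : ℂ)‖
    set r := ‖(((0 : ℝ) : ℂ) + t * I + 3 / 2 : ℂ)‖
    set w := ‖(a + t * I + 3 / 2 : ℂ)‖
    have hp : r ≤ 3 * p := by
      have h3 : r ^ 2 ≤ (3 * p) ^ 2 := by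
        rw [mul_pow, ← Complex.normSq_eq_norm_sq, ← Complex.normSq_eq_norm_sq, Complex.normSq_apply, Complex.normSq_apply]
        simp
        nlinarith [mul_self_nonneg t]
      exact (pow_le_pow_iff_left₀ (norm_nonneg _) (by positivity) two_ne_zero).1 h3
    have hq : q ≤ w := by
      have h3 : q ^ 2 ≤ w ^ 2 := by
        rw [← Complex.normSq_eq_norm_sq, ← Complex.normSq_eq_norm_sq, Complex.normSq_apply, Complex.normSq_apply]
        simp
        nlinarith
      exact (pow_le_pow_iff_left₀ (norm_nonneg _) (norm_nonneg _) two_ne_zero).1 h3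
    have hw : 0 < w := by
      refine norm_pos_iff.2 fun h0 => ?_
      have := congrArg Complex.re h0
      simp at this
      linarith
    have hp0 : 0 < p := by
      refine norm_pos_iff.2 fun h0 => ?_
      have := congrArg Complex.re h0
      simp at this
    have hE2 : Real.exp (a * (Real.log (|t| + 3) / 2 + C0)) ≤ Real.exp C0 * Real.exp (a * Lam t) := by
      rw [← Real.exp_add]
      refine Real.exp_le_exp.2 ?_
      have h3 : Real.log (|t| + 3) ≤ Lam t := Real.log_le_log (by positivity) (by linarith [abs_nonneg t])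
      have h4 : 0 ≤ Real.log (|t| + 3) := Real.log_nonneg (by linarith [abs_nonneg t])
      nlinarith
    set E2 := Real.exp (a * (Real.log (|t| + 3) / 2 + C0))
    have hQ : 0 ≤ Q := norm_nonneg _
    have h3 : P * p * w ≤ E2 * (Q * w) * (3 * p) := by
      refine h2.trans ?_
      refine mul_le_mul ?_ hp (norm_nonneg _) (by positivity)
      exact mul_le_mul_of_nonneg_left (mul_le_mul_of_nonneg_left hq hQ) (Real.exp_pos _).le
    have h4 : P ≤ 3 * E2 * Q := by
      have h5 : P * (p * w) ≤ (3 * E2 * Q) * (p * w) := by nlinarith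
      exact le_of_mul_le_mul_right h5 (by positivity)
    refine h4.trans ?_
    refine mul_le_mul_of_nonneg_right ?_ hQ
    have h0 : 0 ≤ ‖riemannZeta (cl 0)‖ / ‖riemannZeta 1‖ := by positivity
    nlinarith

end Pool.Agent.Q261.BD
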