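import Pool.Agent.Q260.LF.Fin

set_option autoImplicit false

/-!
# The partial fraction formula for the logarithmic derivative of the completed zeta function, under RH

(The proofs are those of `Pool.Agent.Q260.GM.Zl`, `Zl2`, `Zl3`, copied here to keep the imports small.)
-/

namespace Pool.Agent.Q261.BD

open MeasureTheory Filter Topology Set Complex
open scoped ComplexConjugate
open Pool.Agent.Y23 (Zt mu IsZ isZ_iff isZ_conj mu_conj zsummable zsum_le Lg one_le_Lg ZZ YL Rg ZZ_eq cjZ)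
open Pool.Agent.H24R2.JP (XX)
open Pool.Agent.Q260.LF (hk pf line_of ZZ_right)

/-- the sum of the Poisson kernels `x / (x² + (t - γ)²)` over all nontrivial zeros -/
noncomputable def Pz (x t : ℝ) : ℝ :=
  ∑' ρ : Zt, (mu ρ : ℝ) * (x / (x ^ 2 + (t - (ρ : ℂ).im) ^ 2))

lemma XX_ne (hRH : RiemannHypothesis) {w : ℂ} (h : 0 < w.re) : XX w ≠ 0 := by
  intro h0
  have h1 : IsZ (w + 1 / 2) := by
    rw [isZ_iff, add_sub_cancel_right]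
    exact h0
  have h2 := line_of hRH ⟨w + 1 / 2, h1⟩
  simp at h2
  linarith

lemma zeta_ne (hRH : RiemannHypothesis) {s : ℂ} (h : 1 / 2 < s.re) : riemannZeta s ≠ 0 :=
  Pool.Agent.Q260.LF.rh_iff.1 hRH s h

lemma hk_half {z ζ : ℂ} (h1 : z - ζ ≠ 0) (h2 : z + ζ ≠ 0) :
    hk z ζ = (1 / (z - ζ) + 1 / (z + ζ)) / 2 := by
  unfold hk
  have e : z ^ 2 - ζ ^ 2 = (z - ζ) * (z + ζ) := by ring
  rw [e]
  field_simp
  ring

lemma farK {δ R : ℝ} (hδ : 0 < δ) {z ζ : ℂ} (hz : δ ≤ z.re) (hR : ‖z‖ ≤ R) (hζ : ζ.re = 0) :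
    1 + ζ.im ^ 2 ≤ ((1 + 2 * R ^ 2) / δ ^ 2 + 2) * ‖z - ζ‖ ^ 2 := by
  rw [← Complex.normSq_eq_norm_sq, Complex.normSq_apply]
  simp only [sub_re, sub_im, hζ, sub_zero]
  have h1 : z.im ^ 2 ≤ R ^ 2 := by
    have h2 := abs_im_le_norm z
    have h3 : |z.im| ≤ R := h2.trans hR
    rw [← sq_abs]
    exact pow_le_pow_left₀ (abs_nonneg _) h3 2
  have h2 : ζ.im ^ 2 ≤ 2 * ((z.im - ζ.im) * (z.im - ζ.im)) + 2 * z.im ^ 2 := by
    nlinarith [sq_nonneg (2 * z.im - ζ.im)]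
  have h3 : 1 + 2 * R ^ 2 ≤ (1 + 2 * R ^ 2) / δ ^ 2 * (z.re * z.re) := by
    rw [div_mul_eq_mul_div, le_div_iff₀ (by positivity)]
    apply mul_le_mul_of_nonneg_left _ (by positivity)
    nlinarith
  have h4 : 0 ≤ (1 + 2 * R ^ 2) / δ ^ 2 * ((z.im - ζ.im) * (z.im - ζ.im)) :=
    mul_nonneg (by positivity) (mul_self_nonneg _)
  have h5 : 0 ≤ 2 * (z.re * z.re) := mul_nonneg two_pos.le (mul_self_nonneg _)
  nlinarith

lemma hk_loc {δ R : ℝ} (hδ : 0 < δ) {z ζ : ℂ} (hz : δ ≤ z.re) (hR : ‖z‖ ≤ R) (hζ : ζ.re = 0) :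
    ‖hk z ζ‖ ≤ R * ((1 + 2 * R ^ 2) / δ ^ 2 + 2) * (1 / (1 + ζ.im ^ 2)) := by
  have hR0 : 0 ≤ R := (norm_nonneg z).trans hR
  set K : ℝ := (1 + 2 * R ^ 2) / δ ^ 2 + 2 with hK
  have hK0 : 0 < K := by positivity
  have h1 := farK hδ hz hR hζ
  have h2 := farK hδ (ζ := -ζ) hz hR (by simp [hζ])
  rw [sub_neg_eq_add] at h2
  have e1 : (-ζ).im ^ 2 = ζ.im ^ 2 := by simp
  rw [e1, ← hK] at h2
  rw [← hK] at h1
  have h3 : (1 + ζ.im ^ 2) ^ 2 ≤ (K * (‖z - ζ‖ * ‖z + ζ‖)) ^ 2 := by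
    have := mul_le_mul h1 h2 (by positivity) (by positivity)
    calc (1 + ζ.im ^ 2) ^ 2 = (1 + ζ.im ^ 2) * (1 + ζ.im ^ 2) := by ring
      _ ≤ (K * ‖z - ζ‖ ^ 2) * (K * ‖z + ζ‖ ^ 2) := this
      _ = _ := by ring
  have h4 : 1 + ζ.im ^ 2 ≤ K * (‖z - ζ‖ * ‖z + ζ‖) :=
    (pow_le_pow_iff_left₀ (by positivity) (by positivity) two_ne_zero).1 h3
  have h5 : z ^ 2 - ζ ^ 2 = (z - ζ) * (z + ζ) := by ring
  unfold hk
  rw [norm_div, h5, norm_mul]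
  have h6 : 0 < ‖z - ζ‖ * ‖z + ζ‖ := by
    by_contra hcon
    push Not at hcon
    have : K * (‖z - ζ‖ * ‖z + ζ‖) ≤ 0 := mul_nonpos_of_nonneg_of_nonpos hK0.le hcon
    nlinarith [sq_nonneg ζ.im]
  rw [div_le_iff₀ h6, mul_one_div, div_mul_eq_mul_div, le_div_iff₀ (by positivity)]
  calc ‖z‖ * (1 + ζ.im ^ 2) ≤ R * (K * (‖z - ζ‖ * ‖z + ζ‖)) :=
        mul_le_mul hR h4 (by positivity) hR0
    _ = _ := by ring

lemma zt_re (hRH : RiemannHypothesis) (ρ : Zt) : ((ρ : ℂ) - 1 / 2).re = 0 := by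
  have := line_of hRH ρ
  simp [this]

lemma zt_im (ρ : Zt) : ((ρ : ℂ) - 1 / 2).im = (ρ : ℂ).im := by simp

lemma hk_summ (hRH : RiemannHypothesis) {z : ℂ} (hz : 0 < z.re) :
    Summable (fun ρ : Zt => ‖(mu ρ : ℂ) * hk z ((ρ : ℂ) - 1 / 2)‖) := by
  have h := (zsummable 0).mul_left (‖z‖ * ((1 + 2 * ‖z‖ ^ 2) / z.re ^ 2 + 2))
  refine Summable.of_nonneg_of_le (fun _ => norm_nonneg _) (fun ρ => ?_) h
  rw [norm_mul, Complex.norm_natCast]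
  have h1 := hk_loc hz le_rfl le_rfl (zt_re hRH ρ)
  rw [zt_im] at h1
  calc (mu ρ : ℝ) * ‖hk z ((ρ : ℂ) - 1 / 2)‖ ≤ (mu ρ : ℝ) *
        (‖z‖ * ((1 + 2 * ‖z‖ ^ 2) / z.re ^ 2 + 2) * (1 / (1 + (ρ : ℂ).im ^ 2))) :=
        mul_le_mul_of_nonneg_left h1 (Nat.cast_nonneg _)
    _ = _ := by rw [sub_zero]; ring

/-- **the partial fraction formula in the half plane `Re z > 0`** -/
theorem pfR (hRH : RiemannHypothesis) {z : ℂ} (hz : 0 < z.re) :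
    ZZ z = ∑' ρ : Zt, (mu ρ : ℂ) * hk z ((ρ : ℂ) - 1 / 2) := by
  have hU : IsOpen {w : ℂ | 0 < w.re} := isOpen_lt continuous_const continuous_re
  have hUc : IsPreconnected {w : ℂ | 0 < w.re} := (convex_halfSpace_re_gt 0).isPreconnected
  have hf : DifferentiableOn ℂ ZZ {w : ℂ | 0 < w.re} := by
    intro w hw
    have h1 : DifferentiableAt ℂ ZZ w :=
      ((Pool.Agent.Y23.XX_an w).deriv.differentiableAt).div (Pool.Agent.Y23.XX_diff w)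
        (XX_ne hRH hw)
    exact h1.differentiableWithinAt
  have hg : DifferentiableOn ℂ (fun w => ∑' ρ : Zt, (mu ρ : ℂ) * hk w ((ρ : ℂ) - 1 / 2))
      {w : ℂ | 0 < w.re} := by
    intro w hw
    have hw' : 0 < w.re := hw
    set V : Set ℂ := {v : ℂ | w.re / 2 < v.re} ∩ Metric.ball 0 (‖w‖ + 1) with hV
    have hVo : IsOpen V := (isOpen_lt continuous_const continuous_re).inter Metric.isOpen_ball
    have hwV : w ∈ V := ⟨by show w.re / 2 < w.re; linarith, by simp⟩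
    have hd : DifferentiableOn ℂ (fun w => ∑' ρ : Zt, (mu ρ : ℂ) * hk w ((ρ : ℂ) - 1 / 2)) V := by
      refine differentiableOn_tsum_of_summable_norm
        (u := fun ρ : Zt => (‖w‖ + 1) * ((1 + 2 * (‖w‖ + 1) ^ 2) / (w.re / 2) ^ 2 + 2) *
          ((mu ρ : ℝ) * (1 / (1 + ((ρ : ℂ).im - 0) ^ 2))))
        ((zsummable 0).mul_left _) ?_ hVo ?_
      · intro ρ v hv
        have hv0 : 0 < v.re := by have := hv.1; simp only [mem_ofPred_eq] at this; linarith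
        have hne : v ^ 2 - ((ρ : ℂ) - 1 / 2) ^ 2 ≠ 0 := by
          have h1 : v ^ 2 - ((ρ : ℂ) - 1 / 2) ^ 2 =
            (v - ((ρ : ℂ) - 1 / 2)) * (v + ((ρ : ℂ) - 1 / 2)) := by ring
          rw [h1]
          have hr := zt_re hRH ρ
          refine mul_ne_zero ?_ ?_
          · intro h0
            have h2 := congrArg Complex.re h0
            rw [sub_re, hr, Complex.zero_re] at h2
            linarith
          · intro h0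
            have h2 := congrArg Complex.re h0
            rw [add_re, hr, Complex.zero_re] at h2
            linarith
        have h1 : DifferentiableAt ℂ (fun v => (mu ρ : ℂ) * hk v ((ρ : ℂ) - 1 / 2)) v := by
          unfold hk
          have h2 : DifferentiableAt ℂ (fun v : ℂ => v ^ 2 - ((ρ : ℂ) - 1 / 2) ^ 2) v :=
            (differentiableAt_id.pow 2).sub_const _
          have h3 : DifferentiableAt ℂ (fun v : ℂ => v) v := differentiableAt_id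
          exact (h3.div h2 hne).const_mul _
        exact h1.differentiableWithinAt
      · intro ρ v hv
        have hv1 : w.re / 2 ≤ v.re := le_of_lt hv.1
        have hv2 : ‖v‖ ≤ ‖w‖ + 1 := by
          have := hv.2; rw [mem_ball_zero_iff] at this; exact this.le
        have h1 := hk_loc (half_pos hw') hv1 hv2 (zt_re hRH ρ)
        rw [zt_im] at h1
        rw [norm_mul, Complex.norm_natCast]
        calc (mu ρ : ℝ) * ‖hk v ((ρ : ℂ) - 1 / 2)‖ ≤ (mu ρ : ℝ) *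
              ((‖w‖ + 1) * ((1 + 2 * (‖w‖ + 1) ^ 2) / (w.re / 2) ^ 2 + 2) *
                (1 / (1 + (ρ : ℂ).im ^ 2))) := mul_le_mul_of_nonneg_left h1 (Nat.cast_nonneg _)
          _ = _ := by rw [sub_zero]; ring
    exact ((hd w hwV).differentiableAt (hVo.mem_nhds hwV)).differentiableWithinAt
  have ha := hf.analyticOnNhd hU
  have hb := hg.analyticOnNhd hU
  have h2 : (2 : ℂ) ∈ {w : ℂ | 0 < w.re} := by simp
  have hev : ZZ =ᶠ[𝓝 (2 : ℂ)] fun w => ∑' ρ : Zt, (mu ρ : ℂ) * hk w ((ρ : ℂ) - 1 / 2) := by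
    have h3 : {w : ℂ | 1 < w.re} ∈ 𝓝 (2 : ℂ) :=
      (isOpen_lt continuous_const continuous_re).mem_nhds (by simp)
    filter_upwards [h3] with w hw
    exact pf hw
  exact ha.eqOn_of_preconnected_of_eventuallyEq hb hUc h2 hev hz

/-- the Poisson kernel -/
noncomputable def pk (x u : ℝ) : ℝ := x / (x ^ 2 + u ^ 2)

lemma pk_nonneg {x : ℝ} (hx : 0 ≤ x) (u : ℝ) : 0 ≤ pk x u := by unfold pk; positivity

lemma pk_le {x : ℝ} (hx : 0 < x) (h1 : x ≤ 1) (u : ℝ) : pk x u ≤ 1 / x * (1 / (1 + u ^ 2)) := by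
  unfold pk
  rw [div_mul_div_comm, div_le_div_iff₀ (by positivity) (by positivity)]
  have : x ^ 2 * u ^ 2 ≤ 1 * u ^ 2 := mul_le_mul_of_nonneg_right (by nlinarith) (sq_nonneg _)
  nlinarith

lemma pk_le_inv {x : ℝ} (hx : 0 < x) (u : ℝ) : pk x u ≤ 1 / x := by
  unfold pk
  rw [div_le_div_iff₀ (by positivity) hx]
  nlinarith [sq_nonneg u]

lemma pk_neg (x u : ℝ) : pk x (-u) = pk x u := by unfold pk; rw [neg_sq]

lemma inv_re' (z : ℂ) : (1 / z).re = pk z.re z.im := by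
  unfold pk
  rw [one_div, Complex.inv_re, Complex.normSq_apply, sq, sq]

lemma hk_re {x t : ℝ} (hx : 0 < x) {ζ : ℂ} (hζ : ζ.re = 0) :
    (hk ⟨x, t⟩ ζ).re = (pk x (t - ζ.im) + pk x (t + ζ.im)) / 2 := by
  have h1 : (⟨x, t⟩ : ℂ) - ζ ≠ 0 := by
    intro h
    have := congrArg Complex.re h
    simp [hζ] at this
    exact hx.ne' this
  have h2 : (⟨x, t⟩ : ℂ) + ζ ≠ 0 := by
    intro h
    have := congrArg Complex.re h
    simp [hζ] at this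
    exact hx.ne' this
  rw [hk_half h1 h2]
  have e : ((1 / ((⟨x, t⟩ : ℂ) - ζ) + 1 / ((⟨x, t⟩ : ℂ) + ζ)) / 2).re =
      ((1 / ((⟨x, t⟩ : ℂ) - ζ)).re + (1 / ((⟨x, t⟩ : ℂ) + ζ)).re) / 2 := by
    rw [← add_re]
    have : ((1 / ((⟨x, t⟩ : ℂ) - ζ) + 1 / ((⟨x, t⟩ : ℂ) + ζ)) / 2) =
      (((1 / 2 : ℝ)) : ℂ) * (1 / ((⟨x, t⟩ : ℂ) - ζ) + 1 / ((⟨x, t⟩ : ℂ) + ζ)) := by
        push_cast; ring
    rw [this, Complex.re_ofReal_mul]
    ring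
  rw [e, inv_re', inv_re']
  simp only [sub_re, sub_im, add_re, add_im, hζ, sub_zero, add_zero]

lemma Pz_eq (x t : ℝ) : Pz x t = ∑' ρ : Zt, (mu ρ : ℝ) * pk x (t - (ρ : ℂ).im) := rfl

lemma pz_summ {x : ℝ} (hx : 0 < x) (h1 : x ≤ 1) (t : ℝ) :
    Summable (fun ρ : Zt => (mu ρ : ℝ) * pk x (t - (ρ : ℂ).im)) := by
  refine Summable.of_nonneg_of_le (fun ρ => mul_nonneg (Nat.cast_nonneg _) (pk_nonneg hx.le _))
    (fun ρ => ?_) ((zsummable t).mul_left (1 / x))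
  calc (mu ρ : ℝ) * pk x (t - (ρ : ℂ).im) ≤ (mu ρ : ℝ) * (1 / x * (1 / (1 + (t - (ρ : ℂ).im) ^ 2))) :=
        mul_le_mul_of_nonneg_left (pk_le hx h1 _) (Nat.cast_nonneg _)
    _ = _ := by rw [← neg_sub t, neg_sq]; ring

lemma pz_conj (x t : ℝ) : ∑' ρ : Zt, (mu ρ : ℝ) * pk x (t + (ρ : ℂ).im) =
    ∑' ρ : Zt, (mu ρ : ℝ) * pk x (t - (ρ : ℂ).im) := by
  rw [← cjZ.tsum_eq]
  refine tsum_congr fun ρ => ?_
  have k1 : ((cjZ ρ : Zt) : ℂ) = conj (ρ : ℂ) := rfl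
  rw [k1, Complex.conj_im, mu_conj ρ.2, ← sub_eq_add_neg]

lemma pz_summ' {x : ℝ} (hx : 0 < x) (h1 : x ≤ 1) (t : ℝ) :
    Summable (fun ρ : Zt => (mu ρ : ℝ) * pk x (t + (ρ : ℂ).im)) := by
  rw [← cjZ.summable_iff]
  refine (pz_summ hx h1 t).congr fun ρ => ?_
  have k1 : ((cjZ ρ : Zt) : ℂ) = conj (ρ : ℂ) := rfl
  show (mu (ρ : ℂ) : ℝ) * pk x (t - (ρ : ℂ).im) = (mu ((cjZ ρ : Zt) : ℂ) : ℝ) * pk x (t + ((cjZ ρ : Zt) : ℂ).im)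
  rw [k1, Complex.conj_im, mu_conj ρ.2, ← sub_eq_add_neg]

lemma Pz_nonneg {x : ℝ} (hx : 0 ≤ x) (t : ℝ) : 0 ≤ Pz x t :=
  tsum_nonneg fun ρ => mul_nonneg (Nat.cast_nonneg _) (pk_nonneg hx _)

lemma Pz_even (x t : ℝ) : Pz x (-t) = Pz x t := by
  rw [Pz_eq, Pz_eq, ← pz_conj]
  refine tsum_congr fun ρ => ?_
  rw [← pk_neg x (t - _)]
  congr 2
  ring

/-- the Poisson sum is the real part of the logarithmic derivative of the completed function -/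
theorem re_ZZ (hRH : RiemannHypothesis) {x : ℝ} (hx : 0 < x) (h1 : x ≤ 1) (t : ℝ) :
    (ZZ ⟨x, t⟩).re = Pz x t := by
  have hz : 0 < (⟨x, t⟩ : ℂ).re := hx
  rw [pfR hRH hz]
  have hs := (hk_summ hRH hz).of_norm
  rw [Complex.re_tsum hs]
  have e : ∀ ρ : Zt, ((mu ρ : ℂ) * hk ⟨x, t⟩ ((ρ : ℂ) - 1 / 2)).re =
      ((mu ρ : ℝ) * pk x (t - (ρ : ℂ).im) + (mu ρ : ℝ) * pk x (t + (ρ : ℂ).im)) / 2 := by
    intro ρ
    have h2 : (mu ρ : ℂ) = ((mu ρ : ℝ) : ℂ) := by push_cast; rfl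
    rw [h2, Complex.re_ofReal_mul, hk_re hx (zt_re hRH ρ), zt_im]
    ring
  rw [tsum_congr e, tsum_div_const, (pz_summ hx h1 t).tsum_add (pz_summ' hx h1 t), pz_conj, Pz_eq]
  ring

lemma inv_diff {x : ℝ} (hx : 0 < x) (h1 : x ≤ 1) (u : ℝ) :
    ‖1 / (⟨x, u⟩ : ℂ) - 1 / (⟨1, u⟩ : ℂ)‖ ≤ 1 / x * (1 / (1 + u ^ 2)) := by
  have n1 : (⟨x, u⟩ : ℂ) ≠ 0 := by
    intro h; have := congrArg Complex.re h; simp at this; exact hx.ne' this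
  have n2 : (⟨1, u⟩ : ℂ) ≠ 0 := by
    intro h; have := congrArg Complex.re h; simp at this
  rw [div_sub_div _ _ n1 n2, norm_div, norm_mul]
  have e : (1 * (⟨1, u⟩ : ℂ) - (⟨x, u⟩ : ℂ) * 1) = ((1 - x : ℝ) : ℂ) := by
    apply Complex.ext <;> simp
  rw [e, Complex.norm_real, Real.norm_eq_abs, abs_of_nonneg (by linarith)]
  have q1 : ‖(⟨x, u⟩ : ℂ)‖ ^ 2 = x ^ 2 + u ^ 2 := by
    rw [← Complex.normSq_eq_norm_sq, Complex.normSq_apply]; ring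
  have q2 : ‖(⟨1, u⟩ : ℂ)‖ ^ 2 = 1 + u ^ 2 := by
    rw [← Complex.normSq_eq_norm_sq, Complex.normSq_apply]; ring
  have h3 : (x * (1 + u ^ 2)) ^ 2 ≤ (‖(⟨x, u⟩ : ℂ)‖ * ‖(⟨1, u⟩ : ℂ)‖) ^ 2 := by
    rw [mul_pow, mul_pow, q1, q2]
    have : x ^ 2 * (1 + u ^ 2) ≤ x ^ 2 + u ^ 2 := by nlinarith [mul_nonneg (sq_nonneg u) (by nlinarith : 0 ≤ 1 - x ^ 2)]
    nlinarith [sq_nonneg u, mul_le_mul_of_nonneg_right this (by positivity : 0 ≤ 1 + u ^ 2)]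
  have h4 := (pow_le_pow_iff_left₀ (by positivity) (by positivity) two_ne_zero).1 h3
  have h5 : 0 < x * (1 + u ^ 2) := by positivity
  rw [one_div_mul_one_div, div_le_div_iff₀ (by linarith) h5]
  nlinarith

lemma ZZ_norm (hRH : RiemannHypothesis) : ∃ C : ℝ, 0 < C ∧ ∀ x : ℝ, 0 < x → x ≤ 1 → ∀ t : ℝ,
    ‖ZZ ⟨x, t⟩‖ ≤ C * Lg t / x := by
  obtain ⟨K, hK, hKs⟩ := zsum_le
  obtain ⟨C, hC, hR⟩ := ZZ_right
  refine ⟨K + 3 * C, by positivity, fun x hx h1 t => ?_⟩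
  have hL := one_le_Lg t
  have hz : 0 < (⟨x, t⟩ : ℂ).re := hx
  have hz1 : 0 < (⟨1, t⟩ : ℂ).re := one_pos
  have s1 := (hk_summ hRH hz).of_norm
  have s2 := (hk_summ hRH hz1).of_norm
  have e : ZZ ⟨x, t⟩ - ZZ ⟨1, t⟩ = ∑' ρ : Zt, ((mu ρ : ℂ) * hk ⟨x, t⟩ ((ρ : ℂ) - 1 / 2) -
      (mu ρ : ℂ) * hk ⟨1, t⟩ ((ρ : ℂ) - 1 / 2)) := by
    rw [pfR hRH hz, pfR hRH hz1, s1.tsum_sub s2]
  have hb : ∀ ρ : Zt, ‖(mu ρ : ℂ) * hk ⟨x, t⟩ ((ρ : ℂ) - 1 / 2) -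
      (mu ρ : ℂ) * hk ⟨1, t⟩ ((ρ : ℂ) - 1 / 2)‖ ≤
      1 / x * (((mu ρ : ℝ) * (1 / (1 + ((ρ : ℂ).im - t) ^ 2)) + (mu ρ : ℝ) * (1 / (1 + ((ρ : ℂ).im - -t) ^ 2))) / 2) := by
    intro ρ
    rw [← mul_sub, norm_mul, Complex.norm_natCast]
    have hr := zt_re hRH ρ
    have hi := zt_im ρ
    set ζ := (ρ : ℂ) - 1 / 2 with hζ
    have a1 : (⟨x, t⟩ : ℂ) - ζ = ⟨x, t - ζ.im⟩ := by apply Complex.ext <;> simp [hr]
    have a2 : (⟨x, t⟩ : ℂ) + ζ = ⟨x, t + ζ.im⟩ := by apply Complex.ext <;> simp [hr]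
    have a3 : (⟨1, t⟩ : ℂ) - ζ = ⟨1, t - ζ.im⟩ := by apply Complex.ext <;> simp [hr]
    have a4 : (⟨1, t⟩ : ℂ) + ζ = ⟨1, t + ζ.im⟩ := by apply Complex.ext <;> simp [hr]
    have m1 : ∀ u : ℝ, (⟨x, u⟩ : ℂ) ≠ 0 := fun u h => by
      have := congrArg Complex.re h; simp at this; exact hx.ne' this
    have m2 : ∀ u : ℝ, (⟨1, u⟩ : ℂ) ≠ 0 := fun u h => by
      have := congrArg Complex.re h; simp at this
    rw [hk_half (by rw [a1]; exact m1 _) (by rw [a2]; exact m1 _),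
      hk_half (by rw [a3]; exact m2 _) (by rw [a4]; exact m2 _), a1, a2, a3, a4]
    have e2 : (1 / (⟨x, t - ζ.im⟩ : ℂ) + 1 / (⟨x, t + ζ.im⟩ : ℂ)) / 2 -
        (1 / (⟨1, t - ζ.im⟩ : ℂ) + 1 / (⟨1, t + ζ.im⟩ : ℂ)) / 2 =
        ((1 / (⟨x, t - ζ.im⟩ : ℂ) - 1 / (⟨1, t - ζ.im⟩ : ℂ)) +
          (1 / (⟨x, t + ζ.im⟩ : ℂ) - 1 / (⟨1, t + ζ.im⟩ : ℂ))) / 2 := by ring
    rw [e2, norm_div, Complex.norm_ofNat]
    have c1 := inv_diff hx h1 (t - ζ.im)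
    have c2 := inv_diff hx h1 (t + ζ.im)
    have c3 := norm_add_le (1 / (⟨x, t - ζ.im⟩ : ℂ) - 1 / (⟨1, t - ζ.im⟩ : ℂ))
      (1 / (⟨x, t + ζ.im⟩ : ℂ) - 1 / (⟨1, t + ζ.im⟩ : ℂ))
    have d1 : ((ρ : ℂ).im - t) ^ 2 = (t - ζ.im) ^ 2 := by rw [hi]; ring
    have d2 : ((ρ : ℂ).im - -t) ^ 2 = (t + ζ.im) ^ 2 := by rw [hi]; ring
    rw [d1, d2]
    calc (mu ρ : ℝ) * (‖1 / (⟨x, t - ζ.im⟩ : ℂ) - 1 / (⟨1, t - ζ.im⟩ : ℂ) +
          (1 / (⟨x, t + ζ.im⟩ : ℂ) - 1 / (⟨1, t + ζ.im⟩ : ℂ))‖ / 2) ≤ (mu ρ : ℝ) *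
          ((1 / x * (1 / (1 + (t - ζ.im) ^ 2)) + 1 / x * (1 / (1 + (t + ζ.im) ^ 2))) / 2) := by
          apply mul_le_mul_of_nonneg_left _ (Nat.cast_nonneg _)
          linarith
      _ = _ := by ring
  have hsum : Summable (fun ρ : Zt => 1 / x * (((mu ρ : ℝ) * (1 / (1 + ((ρ : ℂ).im - t) ^ 2)) +
      (mu ρ : ℝ) * (1 / (1 + ((ρ : ℂ).im - -t) ^ 2))) / 2)) :=
    (((zsummable t).add (zsummable (-t))).div_const 2).mul_left _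
  have h3 := tsum_of_norm_bounded hsum.hasSum hb
  rw [← e, tsum_mul_left, tsum_div_const, (zsummable t).tsum_add (zsummable (-t))] at h3
  have h4 := hKs t
  have h5 := hKs (-t)
  have h6 : Lg (-t) = Lg t := by unfold Lg; rw [abs_neg]
  rw [h6] at h5
  have h7 := hR ⟨1, t⟩ le_rfl
  have h8 : Real.log (2 + ‖(⟨1, t⟩ : ℂ)‖) ≤ Lg t := by
    apply Real.log_le_log (by positivity)
    have := Complex.norm_le_abs_re_add_abs_im (⟨1, t⟩ : ℂ)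
    simp only [abs_one] at this
    linarith
  have h9 : ‖ZZ ⟨1, t⟩‖ ≤ C * (2 * Lg t) := h7.trans (mul_le_mul_of_nonneg_left (by linarith) hC.le)
  have h10 : ‖ZZ ⟨x, t⟩‖ ≤ ‖ZZ ⟨x, t⟩ - ZZ ⟨1, t⟩‖ + ‖ZZ ⟨1, t⟩‖ := by
    have := norm_add_le (ZZ ⟨x, t⟩ - ZZ ⟨1, t⟩) (ZZ ⟨1, t⟩)
    rwa [sub_add_cancel] at this
  have h11 : 1 ≤ 1 / x := by rw [le_div_iff₀ hx]; linarith
  have h12 : ‖ZZ ⟨x, t⟩ - ZZ ⟨1, t⟩‖ ≤ 1 / x * (K * Lg t) :=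
    h3.trans (mul_le_mul_of_nonneg_left (by linarith) (by positivity))
  have h13 : C * (2 * Lg t) ≤ 1 / x * (3 * C * Lg t) := by
    have : 0 ≤ 3 * C * Lg t := by positivity
    nlinarith
  calc ‖ZZ ⟨x, t⟩‖ ≤ 1 / x * (K * Lg t) + 1 / x * (3 * C * Lg t) := by linarith
    _ = _ := by ring


end Pool.Agent.Q261.BD
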