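import Pool.Agent.Q261.BD.Gr
import Pool.Agent.Q261.BD.PF

set_option autoImplicit false

/-! The logarithmic derivative of zeta to the right of the critical line, under RH. -/

namespace Pool.Agent.Q261.BD

open Complex MeasureTheory Filter Topology Set
open Pool.Agent.Q286.BD
open Q241.SN (GG GH exists_GG)
open Pool.Agent.Y23 (Zt mu zsummable Lg one_le_Lg ZZ)
open Pool.Agent.H24R2.JP (XX)
open Pool.Agent.Q260.LF (hk)

lemma inv_diff' {x x0 : ℝ} (hx : 0 < x) (h1 : x ≤ x0) (u : ℝ) :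
    ‖1 / (⟨x, u⟩ : ℂ) - 1 / (⟨x0, u⟩ : ℂ)‖ ≤ x0 / x * pk x0 u := by
  have hx0 : 0 < x0 := hx.trans_le h1
  have n1 : (⟨x, u⟩ : ℂ) ≠ 0 := by
    intro h; have := congrArg Complex.re h; simp at this; exact hx.ne' this
  have n2 : (⟨x0, u⟩ : ℂ) ≠ 0 := by
    intro h; have := congrArg Complex.re h; simp at this; exact hx0.ne' this
  rw [div_sub_div _ _ n1 n2, norm_div, norm_mul]
  have e : (1 * (⟨x0, u⟩ : ℂ) - (⟨x, u⟩ : ℂ) * 1) = ((x0 - x : ℝ) : ℂ) := by
    apply Complex.ext <;> simp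
  rw [e, Complex.norm_real, Real.norm_eq_abs, abs_of_nonneg (by linarith)]
  have q1 : ‖(⟨x, u⟩ : ℂ)‖ ^ 2 = x ^ 2 + u ^ 2 := by
    rw [← Complex.normSq_eq_norm_sq, Complex.normSq_apply]; ring
  have q2 : ‖(⟨x0, u⟩ : ℂ)‖ ^ 2 = x0 ^ 2 + u ^ 2 := by
    rw [← Complex.normSq_eq_norm_sq, Complex.normSq_apply]; ring
  have p1 : 0 < ‖(⟨x, u⟩ : ℂ)‖ := norm_pos_iff.2 n1
  have p2 : 0 < ‖(⟨x0, u⟩ : ℂ)‖ := norm_pos_iff.2 n2
  set A := ‖(⟨x, u⟩ : ℂ)‖
  set B := ‖(⟨x0, u⟩ : ℂ)‖
  have h3 : x * B ≤ x0 * A := by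
    have h4 : (x * B) ^ 2 ≤ (x0 * A) ^ 2 := by
      rw [mul_pow, mul_pow, q1, q2]
      have h5 : x ^ 2 ≤ x0 ^ 2 := pow_le_pow_left₀ hx.le h1 2
      nlinarith [mul_nonneg (sub_nonneg.2 h5) (sq_nonneg u)]
    exact (pow_le_pow_iff_left₀ (by positivity) (by positivity) two_ne_zero).1 h4
  have e2 : x0 / x * pk x0 u = x0 * x0 / (x * B ^ 2) := by
    unfold pk
    rw [q2]
    field_simp
  rw [e2, div_le_div_iff₀ (by positivity) (by positivity)]
  calc (x0 - x) * (x * B ^ 2) = (x0 - x) * B * (x * B) := by ring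
    _ ≤ (x0 - x) * B * (x0 * A) := mul_le_mul_of_nonneg_left h3 (mul_nonneg (by linarith) p2.le)
    _ ≤ x0 * B * (x0 * A) := by
        refine mul_le_mul_of_nonneg_right ?_ (by positivity)
        exact mul_le_mul_of_nonneg_right (by linarith) p2.le
    _ = x0 * x0 * (A * B) := by ring

lemma ZZ_diff (hRH : RiemannHypothesis) {x x0 : ℝ} (hx : 0 < x) (h0 : x ≤ x0) (h1 : x0 ≤ 1) (t : ℝ) :
    ‖ZZ ⟨x, t⟩ - ZZ ⟨x0, t⟩‖ ≤ x0 / x * Pz x0 t := by
  have hx0 : 0 < x0 := hx.trans_le h0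
  have hz : 0 < (⟨x, t⟩ : ℂ).re := hx
  have hz1 : 0 < (⟨x0, t⟩ : ℂ).re := hx0
  have s1 := (hk_summ hRH hz).of_norm
  have s2 := (hk_summ hRH hz1).of_norm
  have e : ZZ ⟨x, t⟩ - ZZ ⟨x0, t⟩ = ∑' ρ : Zt, ((mu ρ : ℂ) * hk ⟨x, t⟩ ((ρ : ℂ) - 1 / 2) -
      (mu ρ : ℂ) * hk ⟨x0, t⟩ ((ρ : ℂ) - 1 / 2)) := by
    rw [pfR hRH hz, pfR hRH hz1, s1.tsum_sub s2]
  have hb : ∀ ρ : Zt, ‖(mu ρ : ℂ) * hk ⟨x, t⟩ ((ρ : ℂ) - 1 / 2) -
      (mu ρ : ℂ) * hk ⟨x0, t⟩ ((ρ : ℂ) - 1 / 2)‖ ≤
      x0 / x * (((mu ρ : ℝ) * pk x0 (t - (ρ : ℂ).im) + (mu ρ : ℝ) * pk x0 (t + (ρ : ℂ).im)) / 2) := by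
    intro ρ
    rw [← mul_sub, norm_mul, Complex.norm_natCast]
    have hr := zt_re hRH ρ
    have hi := zt_im ρ
    set ζ := (ρ : ℂ) - 1 / 2 with hζ
    have a1 : (⟨x, t⟩ : ℂ) - ζ = ⟨x, t - ζ.im⟩ := by apply Complex.ext <;> simp [hr]
    have a2 : (⟨x, t⟩ : ℂ) + ζ = ⟨x, t + ζ.im⟩ := by apply Complex.ext <;> simp [hr]
    have a3 : (⟨x0, t⟩ : ℂ) - ζ = ⟨x0, t - ζ.im⟩ := by apply Complex.ext <;> simp [hr]
    have a4 : (⟨x0, t⟩ : ℂ) + ζ = ⟨x0, t + ζ.im⟩ := by apply Complex.ext <;> simp [hr]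
    have m1 : ∀ u : ℝ, (⟨x, u⟩ : ℂ) ≠ 0 := fun u h => by
      have := congrArg Complex.re h; simp at this; exact hx.ne' this
    have m2 : ∀ u : ℝ, (⟨x0, u⟩ : ℂ) ≠ 0 := fun u h => by
      have := congrArg Complex.re h; simp at this; exact hx0.ne' this
    rw [hk_half (by rw [a1]; exact m1 _) (by rw [a2]; exact m1 _),
      hk_half (by rw [a3]; exact m2 _) (by rw [a4]; exact m2 _), a1, a2, a3, a4]
    have e2 : (1 / (⟨x, t - ζ.im⟩ : ℂ) + 1 / (⟨x, t + ζ.im⟩ : ℂ)) / 2 -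
        (1 / (⟨x0, t - ζ.im⟩ : ℂ) + 1 / (⟨x0, t + ζ.im⟩ : ℂ)) / 2 =
        ((1 / (⟨x, t - ζ.im⟩ : ℂ) - 1 / (⟨x0, t - ζ.im⟩ : ℂ)) +
          (1 / (⟨x, t + ζ.im⟩ : ℂ) - 1 / (⟨x0, t + ζ.im⟩ : ℂ))) / 2 := by ring
    rw [e2, norm_div, Complex.norm_ofNat]
    have c1 := inv_diff' hx h0 (t - ζ.im)
    have c2 := inv_diff' hx h0 (t + ζ.im)
    have c3 := norm_add_le (1 / (⟨x, t - ζ.im⟩ : ℂ) - 1 / (⟨x0, t - ζ.im⟩ : ℂ))
      (1 / (⟨x, t + ζ.im⟩ : ℂ) - 1 / (⟨x0, t + ζ.im⟩ : ℂ))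
    rw [← hi]
    calc (mu ρ : ℝ) * (‖1 / (⟨x, t - ζ.im⟩ : ℂ) - 1 / (⟨x0, t - ζ.im⟩ : ℂ) +
          (1 / (⟨x, t + ζ.im⟩ : ℂ) - 1 / (⟨x0, t + ζ.im⟩ : ℂ))‖ / 2) ≤ (mu ρ : ℝ) *
          ((x0 / x * pk x0 (t - ζ.im) + x0 / x * pk x0 (t + ζ.im)) / 2) := by
          apply mul_le_mul_of_nonneg_left _ (Nat.cast_nonneg _)
          linarith
      _ = _ := by ring
  have hsum : Summable (fun ρ : Zt => x0 / x * (((mu ρ : ℝ) * pk x0 (t - (ρ : ℂ).im) +
      (mu ρ : ℝ) * pk x0 (t + (ρ : ℂ).im)) / 2)) :=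
    (((pz_summ hx0 h1 t).add (pz_summ' hx0 h1 t)).div_const 2).mul_left _
  have h3 := tsum_of_norm_bounded hsum.hasSum hb
  rw [← e, tsum_mul_left, tsum_div_const, (pz_summ hx0 h1 t).tsum_add (pz_summ' hx0 h1 t), pz_conj,
    ← Pz_eq] at h3
  refine h3.trans (le_of_eq ?_)
  ring

/-- the Gamma factor -/
lemma GR_norm : ∃ C : ℝ, 0 < C ∧ ∀ z : ℂ, 0 < z.re → z.re ≤ 1 →
    ‖logDeriv Gammaℝ (1 / 2 + z)‖ ≤ C * Lam z.im := by
  obtain ⟨C, hC, hb⟩ := H370.DL.logDeriv_Gammaℝ_bound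
  have hK : IsCompact (Icc (0 : ℝ) 1 ×ℂ Icc (-1) 1) := isCompact_Icc.reProdIm isCompact_Icc
  have hc : ContinuousOn (fun z : ℂ => logDeriv Gammaℝ (1 / 2 + z)) (Icc (0 : ℝ) 1 ×ℂ Icc (-1) 1) := by
    intro z hz
    rw [Complex.mem_reProdIm] at hz
    have hopen : IsOpen {s : ℂ | 0 < s.re} := isOpen_lt continuous_const Complex.continuous_re
    have hdo : DifferentiableOn ℂ Gammaℝ {s : ℂ | 0 < s.re} :=
      fun s hs => (Q241.SN.GR_diff hs).differentiableWithinAt
    have hmem : (1 / 2 + z : ℂ) ∈ {s : ℂ | 0 < s.re} := by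
      rw [Set.mem_ofPred_eq, Q241.SN.re_half]; linarith [hz.1.1]
    have h1 : ContinuousAt (deriv Gammaℝ) (1 / 2 + z) :=
      ((hdo.deriv hopen).continuousOn).continuousAt (hopen.mem_nhds hmem)
    have h2 : ContinuousAt Gammaℝ (1 / 2 + z) := (Q241.SN.GR_diff hmem).continuousAt
    have h3 : ContinuousAt (logDeriv Gammaℝ) (1 / 2 + z) :=
      h1.div h2 (Gammaℝ_ne_zero_of_re_pos hmem)
    have h4 : ContinuousAt (fun z : ℂ => 1 / 2 + z) z := by fun_prop
    exact (ContinuousAt.comp (f := fun z : ℂ => 1 / 2 + z) h3 h4).continuousWithinAt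
  obtain ⟨B, hB⟩ := hK.exists_bound_of_continuousOn hc
  refine ⟨C + |B| + 1, by positivity, fun z hz hz1 => ?_⟩
  have hL := Lam_gt z.im
  rcases le_or_gt 1 (|z.im|) with h | h
  · have h1 := hb (1 / 2 + z) (by rw [Q241.SN.re_half]; linarith) (by rw [Q241.SN.re_half]; linarith)
      (by rw [Q241.SN.im_half]; exact h)
    rw [Q241.SN.im_half] at h1
    have h2 := norm_add_le (logDeriv Gammaℝ (1 / 2 + z) - 1 / 2 * (Real.log |z.im| : ℂ))
      (1 / 2 * (Real.log |z.im| : ℂ))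
    rw [sub_add_cancel] at h2
    have e1 : ‖(1 / 2 * (Real.log |z.im| : ℂ) : ℂ)‖ = Real.log |z.im| / 2 := by
      have : (1 / 2 * (Real.log |z.im| : ℂ) : ℂ) = ((Real.log |z.im| / 2 : ℝ) : ℂ) := by push_cast; ring
      rw [this, Complex.norm_real, Real.norm_eq_abs, abs_of_nonneg]
      exact div_nonneg (Real.log_nonneg h) two_pos.le
    rw [e1] at h2
    have h3 : Real.log |z.im| ≤ Lam z.im := Real.log_le_log (by linarith) (by linarith)
    have h4 := abs_nonneg B
    nlinarith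
  · rw [abs_lt] at h
    have h1 := hB z (by
      rw [Complex.mem_reProdIm]
      exact ⟨⟨hz.le, hz1⟩, ⟨h.1.le, h.2.le⟩⟩)
    have h4 := abs_nonneg B
    have h5 := le_abs_self B
    nlinarith

lemma Lg_le (t : ℝ) : Lg t ≤ Lam t :=
  Real.log_le_log (by positivity) (by linarith)

/-- Cauchy's estimate -/
lemma der_bd (hRH : RiemannHypothesis) {g : ℂ → ℂ} (h : GG g) : ∃ C T1 : ℝ, 0 < C ∧ 17 ≤ T1 ∧
    ∀ u : ℝ, T1 ≤ u → ∀ v : ℝ, 1 / (2 * Real.log (Lam u)) ≤ v → v ≤ 1 →
      ‖deriv g (v + u * I)‖ ≤ C * Lam u := by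
  obtain ⟨C, T0, hC, hT0, hgr⟩ := gr hRH h
  obtain ⟨B, hB1, hB⟩ := h.bdd (1 / 2) (by norm_num)
  refine ⟨4 * (18 * C + B), T0 + 1, by positivity, by linarith, fun u hu v hv hv1 => ?_⟩
  have hLu : 0 < Real.log (Lam u) := by linarith [logLam_gt u]
  have hv0 : 0 < v := lt_of_lt_of_le (by positivity) hv
  have hv2 : 1 ≤ v * (2 * Real.log (Lam u)) := by rwa [div_le_iff₀ (by positivity)] at hv
  have hM := ML_ge u
  have hd : DiffContOnCl ℂ g (Metric.ball ((v : ℂ) + u * I) (v / 2)) := by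
    refine DifferentiableOn.diffContOnCl fun z hz => ?_
    have hz2 : z ∈ Metric.closedBall ((v : ℂ) + u * I) (v / 2) := Metric.closure_ball_subset_closedBall hz
    rw [Metric.mem_closedBall, dist_eq_norm] at hz2
    have h2 := (Complex.abs_re_le_norm _).trans hz2
    have e : (z - ((v : ℂ) + u * I)).re = z.re - v := by simp
    rw [e, abs_le] at h2
    exact (h.der z (by linarith [h2.1])).differentiableAt.differentiableWithinAt
  have hs : ∀ z ∈ Metric.sphere ((v : ℂ) + u * I) (v / 2), ‖g z‖ ≤ (18 * C + B) * ML u := by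
    intro z hz
    rw [mem_sphere_iff_norm] at hz
    have h2 := (Complex.abs_re_le_norm _).trans hz.le
    have h3 := (Complex.abs_im_le_norm _).trans hz.le
    have e : (z - ((v : ℂ) + u * I)).re = z.re - v := by simp
    have e' : (z - ((v : ℂ) + u * I)).im = z.im - u := by simp
    rw [e, abs_le] at h2
    rw [e'] at h3
    have h4 : |z.im - u| ≤ 1 := by linarith
    rcases le_or_gt z.re 1 with hc | hc
    · have h5 := abs_le.1 h4
      have h6 := hgr z.im (by linarith [h5.1]) z.re (by linarith [h2.1]) hc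
      rw [Complex.re_add_im] at h6
      refine h6.trans ?_
      have hLz : 0 < Real.log (Lam z.im) := by linarith [logLam_gt z.im]
      have h7 := logLam_shift h4
      have h8 : 1 / (z.re * Real.log (Lam z.im)) ≤ 8 := by
        rw [div_le_iff₀ (mul_pos (by linarith [h2.1]) hLz)]
        have h9 : v / 2 ≤ z.re := by linarith [h2.1]
        have h10 : v / 2 * Real.log (Lam z.im) ≤ z.re * Real.log (Lam z.im) :=
          mul_le_mul_of_nonneg_right h9 hLz.le
        nlinarith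
      have h11 := ML_shift h4
      have h12 := ML_pos z.im
      calc C * (ML z.im * (1 + 1 / (z.re * Real.log (Lam z.im)))) ≤ C * (2 * ML u * (1 + 8)) := by
            refine mul_le_mul_of_nonneg_left ?_ hC.le
            refine mul_le_mul h11 (by linarith) ?_ (by linarith)
            have : 0 < 1 / (z.re * Real.log (Lam z.im)) := by
              have : 0 < z.re := by linarith [h2.1]
              positivity
            linarith
        _ ≤ (18 * C + B) * ML u := by nlinarith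
    · have h5 := hB z (by linarith)
      nlinarith
  have h2 := Complex.norm_deriv_le_of_forall_mem_sphere_norm_le (by positivity : 0 < v / 2) hd hs
  refine h2.trans ?_
  rw [div_le_iff₀ (by positivity)]
  have h3 : ML u * 1 ≤ ML u * (v * (2 * Real.log (Lam u))) := mul_le_mul_of_nonneg_left hv2 (by linarith)
  have h4 := ML_mul u
  have h5 : ML u * (v * (2 * Real.log (Lam u))) = 2 * v * Lam u := by
    calc ML u * (v * (2 * Real.log (Lam u))) = 2 * v * (ML u * Real.log (Lam u)) := by ring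
      _ = _ := by rw [h4]
  rw [h5, mul_one] at h3
  have h6 : 0 < 18 * C + B := by linarith
  calc (18 * C + B) * ML u ≤ (18 * C + B) * (2 * v * Lam u) := mul_le_mul_of_nonneg_left h3 h6.le
    _ = 4 * (18 * C + B) * Lam u * (v / 2) := by ring

lemma re_pt (v u : ℝ) : ((v : ℂ) + u * I).re = v := by simp
lemma im_pt (v u : ℝ) : ((v : ℂ) + u * I).im = u := by simp
lemma mk_pt (v u : ℝ) : ((v : ℂ) + u * I) = ⟨v, u⟩ := by apply Complex.ext <;> simp

/-- the quantity to be bounded in terms of `ZZ` -/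
lemma LD_form (hRH : RiemannHypothesis) {v u : ℝ} (hv : 0 < v) (hne : (v : ℂ) + u * I ≠ 1 / 2) :
    deriv riemannZeta (1 / 2 + v + u * I) / riemannZeta (1 / 2 + v + u * I) + 1 / (-1 / 2 + v + u * I) =
      ZZ ⟨v, u⟩ - logDeriv Gammaℝ (1 / 2 + (v + u * I)) - 1 / (1 / 2 + (v + u * I)) := by
  have hz : 0 < ((v : ℂ) + u * I).re := by rw [re_pt]; exact hv
  have h1 := Q241.SN.logDeriv_ZZ hRH hz
  have h2 := Q241.SN.logDeriv_ZZ' hRH hz hne
  have e0 : ZZ ⟨v, u⟩ = logDeriv XX ((v : ℂ) + u * I) := by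
    rw [mk_pt, logDeriv_apply]; rfl
  have e1 : (-1 / 2 + v + u * I : ℂ) = v + u * I - 1 / 2 := by ring
  rw [pt_add, e1, e0]
  have h3 : (1 : ℂ) / (v + u * I + 3 / 2) = 1 / (3 / 2 + (v + u * I)) := by rw [add_comm]
  rw [h2, h3] at h1
  linear_combination h1

/-- in terms of the derivative of `g` -/
lemma LD_g (hRH : RiemannHypothesis) {g : ℂ → ℂ} (h : GG g) {v u : ℝ} (hv : 0 < v) (hne : (v : ℂ) + u * I ≠ 1 / 2) :
    deriv riemannZeta (1 / 2 + v + u * I) / riemannZeta (1 / 2 + v + u * I) + 1 / (-1 / 2 + v + u * I) =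
      deriv g (v + u * I) + 1 / (v + u * I + 3 / 2) := by
  have hz : 0 < ((v : ℂ) + u * I).re := by rw [re_pt]; exact hv
  have h2 := Q241.SN.logDeriv_ZZ' hRH hz hne
  rw [(h.der _ hz).deriv, h2, pt_add]
  have e1 : (-1 / 2 + v + u * I : ℂ) = v + u * I - 1 / 2 := by ring
  rw [e1]
  ring

lemma small_inv {v u : ℝ} (hv : 0 < v) {c : ℝ} (hc : 1 / 2 ≤ c) : ‖1 / ((c : ℂ) + (v + u * I))‖ ≤ 2 := by
  have h1 := Complex.abs_re_le_norm ((c : ℂ) + (v + u * I))
  have e : ((c : ℂ) + (v + u * I)).re = c + v := by simp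
  rw [e, abs_of_nonneg (by linarith)] at h1
  rw [norm_div, norm_one, div_le_iff₀ (by linarith)]
  linarith

/-- **Z1 (a)** -/
theorem ld : S_LD := by
  intro hRH
  obtain ⟨g, h⟩ := exists_GG hRH
  obtain ⟨C1, T1, hC1, hT1, hder⟩ := der_bd hRH h
  obtain ⟨C2, hC2, hZ⟩ := ZZ_norm hRH
  obtain ⟨C3, hC3, hG⟩ := GR_norm
  have hT1L : 0 < Real.log (Lam T1) := by linarith [logLam_gt T1]
  set C : ℝ := 2 * (C1 + C3 + 4) + C2 * Real.log (Lam T1) with hCd
  have hCp : 0 < C := by positivity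
  refine ⟨C, hCp, ?_⟩
  have key : ∀ u v : ℝ, 0 ≤ u → 0 < v → v ≤ 1 →
      ‖deriv riemannZeta (1 / 2 + v + u * I) / riemannZeta (1 / 2 + v + u * I) + 1 / (-1 / 2 + v + u * I)‖ ≤
        C * (Lam u + ML u / v) := by
    intro u v hu hv hv1
    have hL := Lam_gt u
    have hM := ML_ge u
    have hLu : 0 < Real.log (Lam u) := by linarith [logLam_gt u]
    have hMv : 0 < ML u / v := by positivity
    have hua : |u| = u := abs_of_nonneg hu
    by_cases hne : (v : ℂ) + u * I = 1 / 2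
    · have e1 : (1 / 2 + v + u * I : ℂ) = 1 := by rw [pt_add, hne]; norm_num
      have e2 : (-1 / 2 + v + u * I : ℂ) = 0 := by
        have : (-1 / 2 + v + u * I : ℂ) = v + u * I - 1 / 2 := by ring
        rw [this, hne, sub_self]
      have e3 : deriv riemannZeta 1 = 0 := by
        apply deriv_zero_of_not_differentiableAt
        intro hd
        have hc := hd.continuousAt
        have h1 := riemannZeta_residue_one
        have h2 : Tendsto (fun s : ℂ => (s - 1) * riemannZeta s) (𝓝[≠] 1) (𝓝 ((1 - 1) * riemannZeta 1)) := by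
          refine Tendsto.mono_left ?_ nhdsWithin_le_nhds
          exact ((continuousAt_id.sub continuousAt_const).mul hc).tendsto
        rw [sub_self, zero_mul] at h2
        exact zero_ne_one (tendsto_nhds_unique h2 h1)
      rw [e1, e2, e3, zero_div, div_zero, add_zero, norm_zero]
      positivity
    have hz : 0 < ((v : ℂ) + u * I).re := by rw [re_pt]; exact hv
    have hGv := hG ((v : ℂ) + u * I) hz (by rw [re_pt]; exact hv1)
    rw [im_pt] at hGv
    have hs1 : ‖1 / (1 / 2 + ((v : ℂ) + u * I))‖ ≤ 2 := by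
      have := small_inv (u := u) hv (c := 1 / 2) le_rfl
      push_cast at this
      exact this
    rcases le_total u T1 with hc | hc
    · -- bounded `u`
      rw [LD_form hRH hv hne]
      have h1 := hZ v hv hv1 u
      have h2 : Lg u ≤ Lam u := Lg_le u
      have h3 : Lam u ≤ Real.log (Lam T1) * ML u := by
        rw [← ML_mul u, mul_comm]
        refine mul_le_mul_of_nonneg_right ?_ (by linarith)
        exact Real.log_le_log (Lam_pos u) (Lam_mono (by rw [hua, abs_of_nonneg (by linarith)]; exact hc))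
      have h4 : C2 * Lg u / v ≤ C2 * Real.log (Lam T1) * (ML u / v) := by
        rw [← mul_div_assoc]
        refine div_le_div_of_nonneg_right ?_ hv.le
        nlinarith
      have n1 := norm_sub_le (ZZ ⟨v, u⟩ - logDeriv Gammaℝ (1 / 2 + (v + u * I))) (1 / (1 / 2 + (v + u * I)))
      have n2 := norm_sub_le (ZZ ⟨v, u⟩) (logDeriv Gammaℝ (1 / 2 + (v + u * I)))
      have h5 : 0 < C2 * Real.log (Lam T1) := by positivity
      have h6 : C * (Lam u + ML u / v) = 2 * (C1 + C3 + 4) * Lam u + C2 * Real.log (Lam T1) * Lam u +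
        2 * (C1 + C3 + 4) * (ML u / v) + C2 * Real.log (Lam T1) * (ML u / v) := by rw [hCd]; ring
      rw [h6]
      have h7 : 0 < C2 * Real.log (Lam T1) * Lam u := by positivity
      have h8 : 0 < 2 * (C1 + C3 + 4) * (ML u / v) := by positivity
      nlinarith
    · have huT : 0 < u := by linarith
      have hs2 : ∀ w : ℝ, 0 < w → ‖1 / ((w : ℂ) + u * I + 3 / 2)‖ ≤ 2 := by
        intro w hw
        have := small_inv (u := u) hw (c := 3 / 2) (by norm_num)
        push_cast at this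
        rwa [add_comm ((w : ℂ) + u * I)]
      rcases le_total (1 / (2 * Real.log (Lam u))) v with hcv | hcv
      · rw [LD_g hRH h hv hne]
        have h1 := hder u hc v hcv hv1
        have n1 := norm_add_le (deriv g (v + u * I)) (1 / (v + u * I + 3 / 2))
        have h2 := hs2 v hv
        have h6 : C * (Lam u + ML u / v) = 2 * (C1 + C3 + 4) * Lam u + C2 * Real.log (Lam T1) * Lam u +
          2 * (C1 + C3 + 4) * (ML u / v) + C2 * Real.log (Lam T1) * (ML u / v) := by rw [hCd]; ring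
        rw [h6]
        have h7 : 0 < C2 * Real.log (Lam T1) * Lam u := by positivity
        have h8 : 0 < 2 * (C1 + C3 + 4) * (ML u / v) := by positivity
        have h9 : 0 < C2 * Real.log (Lam T1) * (ML u / v) := by positivity
        nlinarith
      · -- close to the line
        obtain ⟨v0, hv0⟩ : ∃ v0, v0 = 1 / Real.log (Lam u) := ⟨_, rfl⟩
        have hv0p : 0 < v0 := by rw [hv0]; positivity
        have hv01 : v0 ≤ 1 := by
          rw [hv0, div_le_one hLu]; linarith [logLam_gt u]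
        have hv0h : 1 / (2 * Real.log (Lam u)) ≤ v0 := by
          rw [hv0]
          exact div_le_div_of_nonneg_left zero_le_one hLu (by linarith)
        have hvv : v ≤ v0 := hcv.trans hv0h
        have hne0 : (v0 : ℂ) + u * I ≠ 1 / 2 := by
          intro h0
          have := congrArg Complex.im h0
          rw [im_pt] at this
          simp at this
          linarith
        have hz0 : 0 < ((v0 : ℂ) + u * I).re := by rw [re_pt]; exact hv0p
        have hG0 := hG ((v0 : ℂ) + u * I) hz0 (by rw [re_pt]; exact hv01)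
        rw [im_pt] at hG0
        have hs10 : ‖1 / (1 / 2 + ((v0 : ℂ) + u * I))‖ ≤ 2 := by
          have := small_inv (u := u) hv0p (c := 1 / 2) le_rfl
          push_cast at this
          exact this
        -- `ZZ` at `v0`
        have f1 := LD_form hRH hv0p hne0
        have f2 := LD_g hRH h hv0p hne0
        have f3 : ZZ ⟨v0, u⟩ = deriv g (v0 + u * I) + 1 / (v0 + u * I + 3 / 2) +
          logDeriv Gammaℝ (1 / 2 + (v0 + u * I)) + 1 / (1 / 2 + (v0 + u * I)) := by
          rw [← f2, f1]; ring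
        have f4 : ‖ZZ ⟨v0, u⟩‖ ≤ (C1 + C3 + 2) * Lam u := by
          rw [f3]
          have n1 := norm_add_le (deriv g (v0 + u * I) + 1 / (v0 + u * I + 3 / 2) +
            logDeriv Gammaℝ (1 / 2 + (v0 + u * I))) (1 / (1 / 2 + (v0 + u * I)))
          have n2 := norm_add_le (deriv g (v0 + u * I) + 1 / (v0 + u * I + 3 / 2))
            (logDeriv Gammaℝ (1 / 2 + (v0 + u * I)))
          have n3 := norm_add_le (deriv g (v0 + u * I)) (1 / (v0 + u * I + 3 / 2))
          have h1 := hder u hc v0 hv0h hv01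
          have h2 := hs2 v0 hv0p
          nlinarith
        have f5 : Pz v0 u ≤ (C1 + C3 + 2) * Lam u := by
          rw [← re_ZZ hRH hv0p hv01 u]
          exact ((le_abs_self _).trans (Complex.abs_re_le_norm _)).trans f4
        have f6 := ZZ_diff hRH hv hvv hv01 u
        have f7 : v0 / v * Pz v0 u ≤ (C1 + C3 + 2) * (ML u / v) := by
          calc v0 / v * Pz v0 u ≤ v0 / v * ((C1 + C3 + 2) * Lam u) :=
              mul_le_mul_of_nonneg_left f5 (by positivity)
            _ = (C1 + C3 + 2) * (ML u / v) := by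
              rw [hv0]
              unfold ML
              field_simp
        have f8 : ‖ZZ ⟨v, u⟩‖ ≤ (C1 + C3 + 2) * (ML u / v) + (C1 + C3 + 2) * Lam u := by
          have := norm_add_le (ZZ ⟨v, u⟩ - ZZ ⟨v0, u⟩) (ZZ ⟨v0, u⟩)
          rw [sub_add_cancel] at this
          linarith
        rw [LD_form hRH hv hne]
        have n1 := norm_sub_le (ZZ ⟨v, u⟩ - logDeriv Gammaℝ (1 / 2 + (v + u * I))) (1 / (1 / 2 + (v + u * I)))
        have n2 := norm_sub_le (ZZ ⟨v, u⟩) (logDeriv Gammaℝ (1 / 2 + (v + u * I)))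
        have h6 : C * (Lam u + ML u / v) = 2 * (C1 + C3 + 4) * Lam u + C2 * Real.log (Lam T1) * Lam u +
          2 * (C1 + C3 + 4) * (ML u / v) + C2 * Real.log (Lam T1) * (ML u / v) := by rw [hCd]; ring
        rw [h6]
        have h7 : 0 < C2 * Real.log (Lam T1) * Lam u := by positivity
        have h9 : 0 < C2 * Real.log (Lam T1) * (ML u / v) := by positivity
        nlinarith
  intro u v hv hv1
  rcases le_total 0 u with h0 | h0
  · exact key u v h0 hv hv1
  · rcases h0.eq_or_lt with h00 | h00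
    · exact key u v h00.ge hv hv1
    have h2 := key (-u) v (by linarith) hv hv1
    have hne : (1 / 2 + v + u * I : ℂ) ≠ 1 := by
      intro h0
      have := congrArg Complex.im h0
      simp at this
      linarith
    have hd : HasDerivAt riemannZeta (deriv riemannZeta (1 / 2 + v + u * I)) (1 / 2 + v + u * I) :=
      (differentiableAt_riemannZeta hne).hasDerivAt
    have h3 := hd.conj_conj
    have e3 : (starRingEnd ℂ ∘ riemannZeta ∘ starRingEnd ℂ) = riemannZeta := by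
      funext z
      simp only [Function.comp]
      rw [riemannZeta_conj, Complex.conj_conj]
    have e4 : deriv riemannZeta (starRingEnd ℂ (1 / 2 + v + u * I)) =
        starRingEnd ℂ (deriv riemannZeta (1 / 2 + v + u * I)) := by
      have h4 := h3
      change HasDerivAt (starRingEnd ℂ ∘ riemannZeta ∘ starRingEnd ℂ) _ _ at h4
      rw [e3] at h4
      exact h4.deriv
    have e5 : (-1 / 2 + v + ((-u : ℝ) : ℂ) * I : ℂ) = starRingEnd ℂ (-1 / 2 + v + u * I) := by
      rw [map_add, map_add, map_div₀, map_neg, map_one, map_ofNat, map_mul, Complex.conj_I,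
        Complex.conj_ofReal, Complex.conj_ofReal]
      push_cast
      ring
    have e7 : ∀ A B D : ℂ, starRingEnd ℂ (A / B + 1 / D) = starRingEnd ℂ A / starRingEnd ℂ B + 1 / starRingEnd ℂ D := by
      intro A B D
      rw [map_add, map_div₀, map_div₀, map_one]
    have e6 : deriv riemannZeta (1 / 2 + v + ((-u : ℝ) : ℂ) * I) / riemannZeta (1 / 2 + v + ((-u : ℝ) : ℂ) * I) +
        1 / (-1 / 2 + v + ((-u : ℝ) : ℂ) * I) = starRingEnd ℂ (deriv riemannZeta (1 / 2 + v + u * I) /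
          riemannZeta (1 / 2 + v + u * I) + 1 / (-1 / 2 + v + u * I)) := by
      rw [e7, pt_conj, e4, e5, riemannZeta_conj]
    rw [e6, Complex.norm_conj, Lam_neg, ML_neg] at h2
    exact h2

end Pool.Agent.Q261.BD
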